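import Pool.Agent.MP_9b2bac_nt.B.AllBase

namespace Pool.Agent.Results.MP_9b2bac_nt.BigPrimeFactor

theorem result : ∃ c : ℝ, 0 < c ∧ ∀ a : ℕ, 2 ≤ a → ∃ n₀ : ℕ, ∀ n : ℕ, n₀ ≤ n →
    ∃ q : ℕ, q.Prime ∧ q ∣ a ^ n - 1 ∧ (∀ m : ℕ, 0 < m → m < n → ¬ q ∣ a ^ m - 1) ∧
      (n : ℝ) ^ (1 + c) < q :=
  Pool.Agent.MP_9b2bac_nt.B.prim_all

end Pool.Agent.Results.MP_9b2bac_nt.BigPrimeFactor
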