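import Mathlib
import Pool.Agent.Mg.F43e117.G99272f

set_option autoImplicit false

namespace Pool.Agent.Results.MP_9b2bac_nt.CarlitzPoisson

open Polynomial Pool.Agent.MP_9b2bac_nt

theorem result (d : ℕ) (hd : 3 ≤ d) (S : Finset ℕ) (hS : ∀ n ∈ S, 1 ≤ n ∧ (n ≤ d ∨ 8 ≤ n))
    (k : ℕ → ℕ) (hk : ∀ n ∈ S, k n ≤ n)
    (δ : ℝ) (hδ : 0 < δ) :
    ∃ q₀ : ℕ, ∀ (F : Type) [Field F] [Fintype F], Odd (Fintype.card F) → q₀ ≤ Fintype.card F →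
      |({P : F[X] | P.Monic ∧ P.natDegree = d ∧ Irreducible P ∧ ∀ n ∈ S,
            {Q : F[X] | Q.Monic ∧ Irreducible Q ∧ Q.natDegree = n ∧
              Q ∣ carlitz (X : F[X]) P 1}.ncard = k n}.ncard : ℝ) /
          {P : F[X] | P.Monic ∧ P.natDegree = d ∧ Irreducible P}.ncard -
        ∏ n ∈ S, plaw d n (k n)| ≤
      δ + (∏ n ∈ S, plaw d n (k n)) / 10 ^ 10 := by
  classical
  obtain ⟨q₀, h⟩ := Z.lawD hd S hS k hk δ hδ
  refine ⟨max q₀ (2 * d), fun F _ _ ho hq => ?_⟩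
  have h1 := h F ho ((le_max_left _ _).trans hq)
  have h2 := Z.irr_lower (F := F) (d := d) (by omega) ((le_max_right _ _).trans hq)
  have h3 : (0 : ℝ) < (Pnt.irr F d).card := by
    have : (0 : ℝ) < (Fintype.card F : ℝ) ^ d := pow_pos (by exact_mod_cast Fintype.card_pos) _
    refine (Nat.cast_nonneg _).lt_of_ne fun e => ?_
    rw [← e, mul_zero] at h2
    exact absurd this h2.not_gt
  have e1 : {P : F[X] | P.Monic ∧ P.natDegree = d ∧ Irreducible P} = Pnt.irr F d := by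
    ext P
    rw [Finset.mem_coe, Pnt.mem_irr]
    exact ⟨fun ⟨a, b, c⟩ => ⟨a, c, b⟩, fun ⟨a, b, c⟩ => ⟨a, c, b⟩⟩
  have e2 : {P : F[X] | P.Monic ∧ P.natDegree = d ∧ Irreducible P ∧ ∀ n ∈ S,
      {Q : F[X] | Q.Monic ∧ Irreducible Q ∧ Q.natDegree = n ∧
        Q ∣ carlitz (X : F[X]) P 1}.ncard = k n} =
      (Pnt.irr F d).filter fun P => ∀ n ∈ S, Z.nf n P = k n := by
    ext P
    rw [Finset.mem_coe, Finset.mem_filter, Pnt.mem_irr]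
    exact ⟨fun ⟨a, b, c, e⟩ => ⟨⟨a, c, b⟩, e⟩, fun ⟨⟨a, c, b⟩, e⟩ => ⟨a, b, c, e⟩⟩
  rw [e1, e2, Set.ncard_coe_finset, Set.ncard_coe_finset, div_sub' h3.ne', abs_div, abs_of_pos h3,
    div_le_iff₀ h3, mul_comm ((Pnt.irr F d).card : ℝ), div_eq_mul_one_div _ (10 ^ 10 : ℝ),
    mul_comm _ (1 / 10 ^ 10 : ℝ)]
  convert h1

end Pool.Agent.Results.MP_9b2bac_nt.CarlitzPoisson
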