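import Mathlib
import Pool.Agent.Mg.F43e117.Gc1706a
import Pool.Agent.Mg.F43e117.Gad05b4

set_option autoImplicit false

namespace Pool.Agent.Results.MP_9b2bac_nt.CarlitzTwin

open Polynomial Filter Topology Pool.Agent.MP_9b2bac_nt

theorem result (F : Type*) [Field F] [Fintype F] [CharP F 2] (hq : 2 < Fintype.card F)
    (b : F[X]) (hb : b ≠ 0) :
    ∃ S : ℝ, 0 < S ∧
      Tendsto (fun D : ℕ => ∏ᶠ R ∈ {R : F[X] | R.Monic ∧ Irreducible R ∧ R.natDegree ≤ D},
        (1 - 2 / (Fintype.card F : ℝ) ^ R.natDegree) /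
          (1 - 1 / (Fintype.card F : ℝ) ^ R.natDegree) ^ 2) atTop (𝓝 S) ∧
      Tendsto (fun d : ℕ => (d : ℝ) ^ 2 *
        ({P : F[X] | P.Monic ∧ Irreducible P ∧ P.natDegree = d ∧
          ∃ Q M : F[X], Irreducible Q ∧ Q.natDegree ≤ d ∧ 0 < M.natDegree ∧
            carlitz (X : F[X]) P b = b * Q * M}.ncard : ℝ) / (Fintype.card F : ℝ) ^ d)
        atTop (𝓝 S) := by
  classical
  obtain ⟨S, C, h1, h2, h3⟩ := MP_43e117_nt.exists_sing (F := F) (h := 1) one_ne_zero
  refine ⟨S, h3 (Or.inl hq), h1.congr fun D => ?_, ?_⟩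
  · have hs : {R : F[X] | R.Monic ∧ Irreducible R ∧ R.natDegree ≤ D} =
        (MP_43e117_nt.irrLE F D : Set F[X]) := by
      ext R
      simp [MP_43e117_nt.mem_irrLE]
    rw [hs, finprod_mem_coe_finset, MP_43e117_nt.sing]
    refine Finset.prod_congr rfl fun R hR => ?_
    rw [if_neg fun h => (MP_43e117_nt.mem_irrLE.1 hR).2.1.not_isUnit (isUnit_of_dvd_one h)]
    rfl
  · refine (MP_43e117_nt.twin_tendsto one_ne_zero h2).congr' ?_
    filter_upwards [eventually_ge_atTop (b.natDegree + 2)] with d hd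
    have hs : {P : F[X] | P.Monic ∧ Irreducible P ∧ P.natDegree = d ∧
          ∃ Q M : F[X], Irreducible Q ∧ Q.natDegree ≤ d ∧ 0 < M.natDegree ∧
            carlitz (X : F[X]) P b = b * Q * M} =
        ((MP_4fffd4_nt.monF F d).filter fun f => Irreducible f ∧ Irreducible (f + 1) :
          Finset F[X]) := by
      ext P
      simp only [Set.mem_ofPred_eq, Finset.coe_filter, MP_4fffd4_nt.mem_monF]
      constructor
      · rintro ⟨a1, a2, rfl, a4⟩
        exact ⟨⟨a1, rfl⟩, a2, (small_factor_iff hq hb a1 a2 hd).1 a4⟩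
      · rintro ⟨⟨a1, rfl⟩, a2, a4⟩
        exact ⟨a1, a2, rfl, (small_factor_iff hq hb a1 a2 hd).2 a4⟩
    rw [hs, Set.ncard_coe_finset, Finset.card_filter]
    push_cast
    simp only [MP_4fffd4_nt.ind, MP_43e117_nt.qq]
    congr
    ext x
    split_ifs <;> rfl

end Pool.Agent.Results.MP_9b2bac_nt.CarlitzTwin
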