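import Pool.Agent.MP_9b2bac_nt.B.AllBase

namespace Pool.Agent.Results.MP_9b2bac_nt.FewPrimeFactors

theorem result : ∃ c : ℝ, 0 < c ∧ ∀ a : ℕ, 2 ≤ a → ∃ n₀ : ℕ, ∀ n : ℕ, n₀ ≤ n →
    (ArithmeticFunction.cardFactors (a ^ n - 1) : ℝ) ≤ (1 - c) * (n * Real.log a / Real.log n) :=
  Pool.Agent.MP_9b2bac_nt.B.omega_all

end Pool.Agent.Results.MP_9b2bac_nt.FewPrimeFactors
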